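import Pool.Agent.N703.FC.Final

/-!
# The optimal bound `B(a)` on the first difference of linear factor complexity has order of growth
`a log a` (MP_2100e3_co)
-/

set_option autoImplicit false

namespace Pool.Agent.Results.MP_2100e3_co.OrderOfGrowth

open Pool.Agent.N703.FC Filter Asymptotics

/-- `B(a) = Θ(a log a)` as `a → ∞`, with explicit bounds for every real `a ≥ 1`: the set whose
supremum is `B(a)` is bounded, `(a log₂ a)/4 - 1/2 ≤ B(a) ≤ 4 (a + 1) (1 + log₂ (5 (a + 1)))`,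
`B(a) ≤ 10 a² + 2 a`, and `B(a) ≥ 2^(k-1) - 1` whenever `k ≥ 2` and `a ≥ (2^k - 2)/k`. -/
theorem result :
    ((fun a : ℝ => B a) =Θ[atTop] (fun a : ℝ => a * Real.log a)) ∧
    ∀ a : ℝ, 1 ≤ a →
      BddAbove (Vals a) ∧ a * Real.logb 2 a / 4 - 1 / 2 ≤ B a ∧
      B a ≤ 4 * (a + 1) * (1 + Real.logb 2 (5 * (a + 1))) ∧ B a ≤ 10 * a ^ 2 + 2 * a ∧
      ∀ k : ℕ, 2 ≤ k → (2 : ℝ) ^ k - 2 ≤ a * k → (2 : ℝ) ^ (k - 1) - 1 ≤ B a :=
  ⟨theta, fun a ha => all_bounds a ha⟩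

end Pool.Agent.Results.MP_2100e3_co.OrderOfGrowth
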